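import Pool.Agent.TH672.SD.Sq
import Pool.Agent.TH672.SD.Adv

set_option autoImplicit false

/-!
# Every oracle: very few strings destroy the separation properties of `NP` and of `coNP`

The construction is in the library `Pool.Agent.TH672.SD`; it uses the libraries of the starting
files on oracle algorithms (`Pool.Agent.H628R3.RO`) and on the join of oracles and the polynomial
hierarchy (`Pool.Agent.W900.SP`).
-/

namespace Pool.Agent.Results.MP_3b9c7a_lc.SparseDestruction

open Filter Pool.Agent.H628R3.RO Pool.Agent.W900.SP Pool.Agent.TH672.SD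
open Pool.Agent.NPC (pairBits)
open Pool.Agent.W900.SP (join)

/-- `T` has at most `g n` strings of length at most `n`, for all `n`. -/
def Few (g : ℕ → ℕ) (T : Oracle) : Prop :=
  ∀ n, {q | T q = true ∧ q.length ≤ n}.Finite ∧ {q | T q = true ∧ q.length ≤ n}.ncard ≤ g n

/-- Relative to `A` the class `NP` has the separation property. -/
def SepNP (A : Oracle) : Prop := ∀ L₀ L₁ : Set (List Bool), IsNP A L₀ → IsNP A L₁ →
  Disjoint L₀ L₁ → ∃ S, IsNP A S ∧ IsNP A Sᶜ ∧ L₀ ⊆ S ∧ L₁ ⊆ Sᶜ

/-- Relative to `A` the class `coNP` has the separation property. -/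
def SepCoNP (A : Oracle) : Prop := ∀ L₀ L₁ : Set (List Bool), IsNP A L₀ᶜ → IsNP A L₁ᶜ →
  Disjoint L₀ L₁ → ∃ S, IsNP A S ∧ IsNP A Sᶜ ∧ L₀ ⊆ S ∧ L₁ ⊆ Sᶜ

/-- The input `x` together with a pad of length `2 ^ (|x| / k)`: with this input an algorithm that
is fast in the length of its input may run for a time polynomial in `2 ^ (|x| / k)`. -/
def padded (k : ℕ) (x : List Bool) : List Bool :=
  pairBits x (List.replicate (2 ^ (x.length / k)) true)

/-- The set `S` is accepted by the nondeterministic algorithm `V` with witnesses of length `p`, on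
padded inputs, that is, in nondeterministic time polynomial in `2 ^ (n / k)`. -/
def Accepts (A : Oracle) (V : Alg) (p : Polynomial ℕ) (k : ℕ) (S : Set (List Bool)) : Prop :=
  ∀ x, x ∈ S ↔ ∃ w : List Bool, w.length ≤ p.eval (padded k x).length ∧
    V.out A (pairBits (padded k x) w) = some [true]

/-- The sets `L₀` and `L₁` are disjoint and have no separator in `NP ∩ coNP`, and none that is
accepted, together with its complement, in nondeterministic time `2 ^ o(n)`. -/
def Inseparable (A : Oracle) (L₀ L₁ : Set (List Bool)) : Prop :=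
  Disjoint L₀ L₁ ∧ (∀ S, L₀ ⊆ S → L₁ ⊆ Sᶜ → ¬ (IsNP A S ∧ IsNP A Sᶜ)) ∧
  ∀ (V₀ V₁ : Alg) (p₀ p₁ : Polynomial ℕ), ∃ k₀, ∀ k ≥ k₀, ∀ S, L₀ ⊆ S → L₁ ⊆ Sᶜ →
    ¬ (Accepts A V₀ p₀ k S ∧ Accepts A V₁ p₁ k Sᶜ)

/-- Relative to `A` the level `Σ_{k+1}` of the polynomial hierarchy is not contained in `Σ_k` with
polynomial advice. -/
def Step (A : Oracle) (k : ℕ) : Prop := ∃ L, IsSig A (k + 1) L ∧ ¬ IsSigPoly A k L

/-- For every oracle `O` and every function `g`: if `g` tends to infinity, however slowly, then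
there is a second oracle `T` with at most `g n` strings of length at most `n`, for all `n`, such
that relative to `join O T` neither `NP` nor `coNP` has the separation property, the inseparable
pairs being pairs of sets in `UP` and pairs of sets in `coUP`, although all levels of the
polynomial hierarchy that are distinct relative to `O` (in the sense of `Step`) are also distinct
relative to `join O T`; and if `g` does not tend to infinity then no second oracle `T` with at
most `g n` strings of length at most `n` changes anything about the separation properties. -/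
theorem result (O : Oracle) (g : ℕ → ℕ) :
    (Tendsto g atTop atTop → ∃ T : Oracle, Few g T ∧
      (∃ L₀ L₁, IsUP (join O T) L₀ ∧ IsUP (join O T) L₁ ∧ Inseparable (join O T) L₀ L₁) ∧
      (∃ L₀ L₁, IsUP (join O T) L₀ᶜ ∧ IsUP (join O T) L₁ᶜ ∧ Inseparable (join O T) L₀ L₁) ∧
      ¬ SepNP (join O T) ∧ ¬ SepCoNP (join O T) ∧ ∀ k, Step O k → Step (join O T) k) ∧
    (¬ Tendsto g atTop atTop → ∀ T : Oracle, Few g T →
      (SepNP (join O T) ↔ SepNP O) ∧ (SepCoNP (join O T) ↔ SepCoNP O)) := by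
  constructor
  · intro hg
    obtain ⟨T, h1, ⟨L₀, L₁, h2, h3, h4, h5⟩, ⟨K₀, K₁, h6, h7, h8, h9⟩⟩ :=
      mainS O (fun n => min (g n) n) (tendsto_atTop.2 fun b =>
        ((tendsto_atTop.1 hg b).and (eventually_ge_atTop b)).mono fun n hn => le_min hn.1 hn.2)
    have hd : ∀ {L₀ L₁ : Set (List Bool)}, (∀ x, ¬ (x ∈ L₀ ∧ x ∈ L₁)) → Disjoint L₀ L₁ :=
      fun h => Set.disjoint_left.2 fun x hx hx' => h x ⟨hx, hx'⟩
    have hI : Inseparable (join O T) L₀ L₁ := ⟨hd h4, h5⟩
    have hI' : Inseparable (join O T) K₀ K₁ := ⟨hd h8, h9⟩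
    refine ⟨T, fun n => ⟨(h1 n).1, (h1 n).2.trans (min_le_left _ _)⟩, ⟨L₀, L₁, h2, h3, hI⟩,
      ⟨K₀, K₁, h6, h7, hI'⟩, fun h => ?_, fun h => ?_, fun k hk => ?_⟩
    · obtain ⟨S, hS1, hS2, hS3, hS4⟩ := h L₀ L₁ (IsUP.isNP h2) (IsUP.isNP h3) hI.1
      exact h5.1 S hS3 hS4 ⟨hS1, hS2⟩
    · obtain ⟨S, hS1, hS2, hS3, hS4⟩ := h K₀ K₁ (IsUP.isNP h6) (IsUP.isNP h7) hI'.1
      exact h9.1 S hS3 hS4 ⟨hS1, hS2⟩
    · obtain ⟨L, hL1, hL2⟩ := hk
      refine ⟨L, isSig_iff.2 (isSig_join T (isSig_iff.1 hL1)), fun h => hL2 ?_⟩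
      exact isSigPoly_iff.2 (AD.isSigPoly_of_few (fun n => ⟨(h1 n).1, (h1 n).2.trans
        (min_le_right _ _)⟩) (isSigPoly_iff.1 h))
  · intro hg T hT
    have hfin := finite_of_atMost hg hT
    constructor
    · refine inv_finite (X := SepNP) ?_ hfin
      intro A A' h hA
      simpa only [SepNP, IsNP, h] using hA
    · refine inv_finite (X := SepCoNP) ?_ hfin
      intro A A' h hA
      simpa only [SepCoNP, IsNP, h] using hA

end Pool.Agent.Results.MP_3b9c7a_lc.SparseDestruction
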